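import Mathlib
import Pool.Agent.K1H24.Diag.Terms

set_option autoImplicit false

/-!
# Lattices of diagonal sublattices: Q1 of MP_bb8c7b_al has a negative answer

For every finite lattice `M` there is a lattice identity that fails in some lattice but holds in
`Δ(L)` for every lattice `L` of the variety generated by `M`.  With `M = M₃` this is the negated
form of Q1.

The identity is `⋀_{i<j<n} (xᵢ ∨ xⱼ) ≤ ⋁_{i<j<n} (xᵢ ∧ xⱼ)` with `n` larger than the number of
sublattices of `M × M`.
-/

namespace Pool.Agent.Results.MP_bb8c7b_al.PigeonIdentity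

open Pool.Agent.K1H24.Diag

universe u v w

/-- The negated form of Q1: there are a nontrivial variety (given by a set `E` of identities) that
is not the variety of distributive lattices and an identity `e` that fails in some lattice but
holds in `Δ(L)` for every `L` in the variety. -/
def NegQ1 : Prop :=
  ∃ E : Set (LTm × LTm),
    (∃ (L : Type u) (_ : Lattice L), Nontrivial L ∧ InVar E L) ∧
    ¬ (∀ (L : Type u) [Lattice L],
        InVar E L ↔ ∀ x y z : L, x ⊓ (y ⊔ z) = (x ⊓ y) ⊔ (x ⊓ z)) ∧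
    ∃ e : LTm × LTm, (∃ (K : Type u) (_ : Lattice K), ¬ Holds K e) ∧
      ∀ (L : Type u) [Lattice L], InVar E L → Holds (Diag L) e

theorem result :
    (∀ (M : Type u) [Lattice M] [Finite M], ∃ e : LTm × LTm,
      (∃ (K : Type w) (_ : Lattice K), ¬ Holds K e) ∧
      ∀ (L : Type v) [Lattice L], (∀ e' : LTm × LTm, Holds M e' → Holds L e') →
        Holds (Diag L) e) ∧
    NegQ1.{u} := by
  refine ⟨fun M _ _ => ⟨pig (Nat.card (Sublattice (M × M)) + 2),
    ⟨MX (ULift.{w} ℕ), inferInstance, not_holds_pig _⟩, fun L _ hL => holds_pig hL⟩, ?_⟩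
  have hfin : Finite (MX (ULift.{u} (Fin 3))) := by
    let f : MX (ULift.{u} (Fin 3)) → Option (Option (ULift.{u} (Fin 3))) := fun x =>
      match x with
      | .bot => none
      | .top => some none
      | .at a => some (some a)
    refine Finite.of_injective f ?_
    rintro (_ | a | _) (_ | b | _) h <;> simp_all [f]
  refine ⟨{e | Holds (MX (ULift.{u} (Fin 3))) e}, ?_, ?_,
    pig (Nat.card (Sublattice (MX (ULift.{u} (Fin 3)) × MX (ULift.{u} (Fin 3)))) + 2),
    ⟨MX (ULift.{u} ℕ), inferInstance, not_holds_pig _⟩, fun L _ hL => holds_pig hL⟩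
  · refine ⟨MX (ULift.{u} (Fin 3)), inferInstance, ⟨⟨MX.bot, MX.top, ?_⟩⟩, fun e he => he⟩
    intro h
    cases h
  · intro h
    have h1 := (h (MX (ULift.{u} (Fin 3)))).1 (fun e he => he)
      (MX.at ⟨0⟩) (MX.at ⟨1⟩) (MX.at ⟨2⟩)
    rw [MX.sup_at (by simp), MX.inf_at (by simp), MX.inf_at (by simp)] at h1
    have h2 : (MX.at ⟨0⟩ ⊓ MX.top : MX (ULift.{u} (Fin 3))) = MX.at ⟨0⟩ := by
      show MX.inf _ _ = _
      simp [MX.inf]
    have h3 : (MX.bot ⊔ MX.bot : MX (ULift.{u} (Fin 3))) = MX.bot := sup_idem _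
    rw [h2, h3] at h1
    cases h1

end Pool.Agent.Results.MP_bb8c7b_al.PigeonIdentity
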